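import Pool.Agent.V2450.Deligne.Nil

/-!
# Local liftings for tori which are split by a nilpotent extension

Let `F` be a non-archimedean local field, `T` a torus over `F` which is split by a Galois extension `L/F` with
a nilpotent Galois group `Γ`, and `r : T^∨ ⋊ Γ → GL(n, ℂ)` an algebraic representation. Let `X = Irr T(F)` be
the set of the characters of `T(F)`, `Y = Irr GL(n, F)`, and let `l₀ : X → Y` be the following map: a character
`x` has a local parameter `W_F → T^∨ ⋊ Γ` (Langlands), its composition with `r` is a semisimple
representation of `W_F` of dimension `n`, and `l₀ x` is the representation of `GL(n, F)` which corresponds to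
it (Harris and Taylor, Henniart, Laumon, Rapoport and Stuhler).

A global situation `i ∈ I` consists of a number field `K`, a place `𝔭` with `K_𝔭 = F`, a torus `T'` over `K`
which is split by a Galois extension `L'/K` with the group `Γ`, such that `T'_𝔭 ≅ T` as in the problem, an
automorphic representation `π` of `T'`, that is a character of `T'(𝔸_K)/T'(K)`, and a global lifting
`Π = l_r(π)`. Let `G i = W_K` be the Weil group, `N i = W_{L'}`, so that `G i ⧸ N i = Γ`, let
`φ : W_K → T^∨ ⋊ Γ` be the parameter of `π` and `ρ i = r ∘ φ`, a representation on `V i = ℂⁿ`. Since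
`φ(W_{L'}) ⊆ T^∨`, the subgroup `N i` acts through commuting semisimple operators, and `ρ i` is semisimple.
Let `x i = π_𝔭 ∈ X` and `y i = Π_𝔭 ∈ Y`.

Let `P i H W` be the following statement on a subgroup `H ⊇ N i` of `G i = W_K`, which is the Weil group of
the field `K_H`, and a subspace `W` of `V i`: `W` is stable under `H`, and there is an isobaric automorphic
representation of `GL(m, 𝔸_{K_H})`, `m = dim W`, whose component at every place `v` corresponds to the
restriction of the representation `W` to the Weil group of `(K_H)_v` under the local Langlands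
correspondence. `IsAut (ρ i) (N i) (P i)` lists the facts which are known: (`line`) `dim W = 1` (class field
theory); (`ind`) induction from a normal subgroup `H' ⊇ N i` of `H` (automorphic induction for Galois
extensions with nilpotent group, Arthur and Clozel, and its compatibility with the local correspondence
at all the places, Harris and Taylor, Henniart); (`sum`) direct sums (isobaric sums).

The hypothesis `h` is known: if `P i ⊤ ⊤`, there is an isobaric representation `Π'` of `GL(n, 𝔸_K)` whose
components correspond to the restrictions of `ρ i`; then `Π' ≅ Π` by strong multiplicity one, and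
`Π_𝔭 = Π'_𝔭 = l₀ (π_𝔭)` by the compatibility of the local and the global parameters of characters of tori.
-/

set_option autoImplicit false

namespace Pool.Agent.Results.MP_5ae62c_nt.ToriWithNilpotentGroup

open Pool.Agent.V2450.Deligne

/-- Let `G i`, `V i`, `ρ i`, `N i`, `P i`, `x i`, `y i` be as above. Then `P i` is true for `G i` and `V i` for all `i`,
and the map `l = l₀` has the property of the problem: there is a map `l : X → Y` such that
`Π_𝔭 = l (π_𝔭)` for all the global situations. -/
theorem result (X Y : Type) (l₀ : X → Y) (I : Type) (G : I → Type) [∀ i, Group (G i)]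
    (V : I → Type) [∀ i, AddCommGroup (V i)] [∀ i, Module ℂ (V i)]
    [∀ i, FiniteDimensional ℂ (V i)] [∀ i, Nontrivial (V i)]
    (ρ : ∀ i, Representation ℂ (G i) (V i))
    (hss : ∀ i, ∀ U : Submodule ℂ (V i), Stable (ρ i) U →
      ∃ U' : Submodule ℂ (V i), Stable (ρ i) U' ∧ IsCompl U U')
    (N : ∀ i, Subgroup (G i)) [∀ i, (N i).Normal] [∀ i, Finite (G i ⧸ N i)]
    [∀ i, Group.IsNilpotent (G i ⧸ N i)] (hab : ∀ i, Ab (ρ i) (N i))
    (P : ∀ i, Subgroup (G i) → Submodule ℂ (V i) → Prop)
    (hP : ∀ i, IsAut (ρ i) (N i) (P i)) (x : I → X) (y : I → Y)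
    (h : ∀ i, P i ⊤ ⊤ → y i = l₀ (x i)) :
    (∀ i, P i ⊤ ⊤) ∧ ∃ l : X → Y, ∀ i, y i = l (x i) := by
  have key : ∀ i, P i ⊤ ⊤ := fun i =>
    aut_all (ρ i) (N i) (hab i) (hP i) (hss i) _ ⊤ (fun _ _ _ => Submodule.mem_top)
      bot_ne_top.symm rfl
  exact ⟨key, l₀, fun i => h i (key i)⟩

end Pool.Agent.Results.MP_5ae62c_nt.ToriWithNilpotentGroup
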